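import Pool.Agent.H14.AutW2

set_option autoImplicit false

namespace Pool.Agent.Results.MP_c978f4_al.AutW

theorem result (F : Type) [Field F] [CharZero F]
    (ψ : Derivation F (MvPolynomial ℕ F) (MvPolynomial ℕ F) ≃ₗ⁅F⁆
      Derivation F (MvPolynomial ℕ F) (MvPolynomial ℕ F)) :
    ∃ φ : MvPolynomial ℕ F ≃ₐ[F] MvPolynomial ℕ F,
      ∀ (D : Derivation F (MvPolynomial ℕ F) (MvPolynomial ℕ F)) (f : MvPolynomial ℕ F),
        ψ D f = φ (D (φ.symm f)) := by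
  have h : Pool.Agent.H14.AutW.IsAut (fun _ => True) ψ :=
    ⟨fun _ _ => trivial, fun e _ => ⟨ψ.symm e, trivial, ψ.apply_symm_apply e⟩,
      fun _ _ _ _ k => ψ.injective k, fun d e _ _ => ⟨map_add ψ d e, ψ.map_lie d e⟩,
      fun c d _ => map_smul ψ c d⟩
  obtain ⟨φ, hφ⟩ := h.main Pool.Agent.H14.AutW.good_all
  exact ⟨φ, fun D f => by rw [← hφ D trivial, φ.apply_symm_apply]⟩

end Pool.Agent.Results.MP_c978f4_al.AutW
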